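import Pool.Agent.FU3.Stmts

set_option autoImplicit false

namespace Pool.Agent.FU3.H20

open Pool.Agent.FUR Pool.Agent.FU2

theorem choose_ratio {k n : ℕ} (hkn : k ≤ n) (q : ℕ) :
    k.choose q * n ^ q ≤ n.choose q * k ^ q := by
  induction q with
  | zero => simp
  | succ q ih =>
    have h1 := Nat.choose_succ_right_eq k q
    have h2 := Nat.choose_succ_right_eq n q
    have h3 : (k - q) * n ≤ (n - q) * k := by
      rcases le_total k q with h | h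
      · rw [Nat.sub_eq_zero_of_le h, zero_mul]
        exact Nat.zero_le _
      · obtain ⟨a, rfl⟩ := Nat.exists_eq_add_of_le h
        obtain ⟨b, rfl⟩ := Nat.exists_eq_add_of_le hkn
        have e1 : q + a - q = a := by omega
        have e2 : q + a + b - q = a + b := by omega
        rw [e1, e2]
        nlinarith [Nat.zero_le (b * q)]
    have h4 : (q + 1) * (k.choose (q + 1) * n ^ (q + 1)) ≤
        (q + 1) * (n.choose (q + 1) * k ^ (q + 1)) := by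
      calc (q + 1) * (k.choose (q + 1) * n ^ (q + 1))
          = (k.choose (q + 1) * (q + 1)) * n ^ q * n := by ring
        _ = k.choose q * n ^ q * ((k - q) * n) := by rw [h1]; ring
        _ ≤ n.choose q * k ^ q * ((n - q) * k) := Nat.mul_le_mul ih h3
        _ = (n.choose q * (n - q)) * k ^ q * k := by ring
        _ = (q + 1) * (n.choose (q + 1) * k ^ (q + 1)) := by rw [← h2]; ring
    exact Nat.le_of_mul_le_mul_left h4 (Nat.succ_pos q)

theorem nug : NUGStmt := by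
  intro d
  obtain ⟨A, hA⟩ : ∃ A : ℕ, A = (128 * (d + 4)) ^ (2 * d) := ⟨_, rfl⟩
  have hA1 : 1 ≤ A := by
    rw [hA]
    exact Nat.one_le_pow _ _ (by omega)
  refine ⟨12 * 10 ^ 9 * (d + 4) ^ 4 * A, ?_⟩
  intro n r s hr hs hn hC
  have hr0 : 0 < r := hr
  have hT1 : 1 ≤ (d + 4) * r := Nat.one_le_iff_ne_zero.2 (by positivity)
  have hd1 : 1 ≤ (d + 4) ^ 4 := Nat.one_le_pow _ _ (by omega)
  -- the size of s
  have hrp : 1 ≤ r ^ (2 * d + 6) := Nat.one_le_pow _ _ hr0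
  have hC1 : 1 ≤ 12 * 10 ^ 9 * (d + 4) ^ 4 * A := by
    have : 1 ≤ (d + 4) ^ 4 * A := Nat.one_le_iff_ne_zero.2 (by positivity)
    nlinarith
  have hsn : s ≤ n ^ 2 := by
    have h1 : s * 1 ≤ (12 * 10 ^ 9 * (d + 4) ^ 4 * A) * s * r ^ (2 * d + 6) := by
      have h2 : 1 * s ≤ (12 * 10 ^ 9 * (d + 4) ^ 4 * A) * s := Nat.mul_le_mul_right _ hC1
      calc s * 1 = 1 * s * 1 := by ring
        _ ≤ (12 * 10 ^ 9 * (d + 4) ^ 4 * A) * s * r ^ (2 * d + 6) := Nat.mul_le_mul h2 hrp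
    omega
  have hs4 : s ≤ 4 ^ r := by
    calc s ≤ n ^ 2 := hsn
      _ ≤ (2 ^ r) ^ 2 := Nat.pow_le_pow_left hn 2
      _ = 4 ^ r := by rw [← pow_mul, mul_comm, pow_mul]; norm_num
  have hAT : (128 * ((d + 4) * r)) ^ (2 * d) = A * r ^ (2 * d) := by
    rw [hA, ← mul_pow]
    congr 1
    ring
  obtain ⟨κ, hκ⟩ : ∃ κ : ℝ, κ = Real.sqrt (((r + 2 : ℕ) : ℝ) /
      (200 * ((((d + 4) * r : ℕ) : ℝ)) ^ 4 * ((s + (r + 2) : ℕ) : ℝ))) := ⟨_, rfl⟩
  obtain ⟨T, hT⟩ : ∃ T : ℕ, T = (d + 4) * r := ⟨_, rfl⟩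
  obtain ⟨q, hq⟩ : ∃ q : ℕ, q = r + 2 := ⟨_, rfl⟩
  rw [← hT, ← hq] at hκ
  rw [← hT] at hAT hT1
  have hTR : (1 : ℝ) ≤ T := by exact_mod_cast hT1
  have hT0 : (0 : ℝ) < T := by linarith
  have hq0 : (0 : ℝ) < q := by
    rw [hq]
    positivity
  have hs0 : (0 : ℝ) < ((s + q : ℕ) : ℝ) := by
    push_cast
    positivity
  have hqs : (q : ℝ) ≤ ((s + q : ℕ) : ℝ) := by
    push_cast
    have : (0 : ℝ) ≤ s := Nat.cast_nonneg s
    linarith
  have hκ0 : 0 < κ := by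
    rw [hκ]
    exact Real.sqrt_pos.2 (by positivity)
  have hκ2 : κ ^ 2 = (q : ℝ) / (200 * (T : ℝ) ^ 4 * ((s + q : ℕ) : ℝ)) := by
    rw [hκ]
    exact Real.sq_sqrt (by positivity)
  have hκT : κ ^ 2 * (T : ℝ) ^ 4 = (q : ℝ) / (200 * ((s + q : ℕ) : ℝ)) := by
    rw [hκ2]
    field_simp
  refine ⟨T, q, 5 * q, κ, hT1, ?_, ?_, hκ0, ?_, by omega, by omega, by omega, ?_⟩
  · calc 2 * (2 ^ r * s) * (2 ^ r) ^ d ≤ 2 * (2 ^ r * 4 ^ r) * (2 ^ r) ^ d := by gcongr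
      _ = 2 ^ (1 + 3 * r + r * d) := by
          rw [show (4 : ℕ) = 2 ^ 2 by norm_num, ← pow_mul, ← pow_mul]
          rw [pow_add, pow_add, show 3 * r = r + 2 * r by ring, pow_add]
          ring
      _ ≤ 2 ^ (2 * T) := by
          apply Nat.pow_le_pow_right (by norm_num)
          rw [hT]
          nlinarith [Nat.zero_le (r * d)]
      _ = 4 ^ T := by
          rw [pow_mul]
          norm_num
  · -- (128 T)^d ≤ n
    have h1 : ((128 * T) ^ d) ^ 2 ≤ n ^ 2 := by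
      have h2 : ((128 * T) ^ d) ^ 2 = A * r ^ (2 * d) := by
        rw [← hAT, ← pow_mul]
        congr 1
        ring
      have h3 : A * r ^ (2 * d) ≤ (12 * 10 ^ 9 * (d + 4) ^ 4 * A) * s * r ^ (2 * d + 6) := by
        have h4 : A ≤ (12 * 10 ^ 9 * (d + 4) ^ 4 * A) * s := by
          have h5 : 1 ≤ 12 * 10 ^ 9 * (d + 4) ^ 4 * s :=
            Nat.one_le_iff_ne_zero.2 (by positivity)
          calc A = 1 * A := (one_mul _).symm
            _ ≤ (12 * 10 ^ 9 * (d + 4) ^ 4 * s) * A := Nat.mul_le_mul_right _ h5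
            _ = _ := by ring
        exact Nat.mul_le_mul h4 (Nat.pow_le_pow_right hr0 (by omega))
      rw [h2]
      omega
    exact (Nat.pow_le_pow_iff_left (by norm_num)).1 h1
  · rw [hκT]
    rw [← mul_div_assoc, div_le_one (by positivity)]
    nlinarith
  intro n₁ hn1 hnT
  -- the main inequality
  have hmain : 10 ^ 9 * T ^ 4 * (s + q) * q ≤ n₁ ^ 2 := by
    have h1 : n ^ 2 ≤ A * r ^ (2 * d) * n₁ ^ 2 := by
      calc n ^ 2 ≤ ((128 * T) ^ d * n₁) ^ 2 := Nat.pow_le_pow_left hnT 2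
        _ = (128 * T) ^ (2 * d) * n₁ ^ 2 := by
            rw [mul_pow, ← pow_mul]
            congr 2
            ring
        _ = _ := by rw [hAT]
    have h2 : (A * r ^ (2 * d)) * (12 * 10 ^ 9 * (d + 4) ^ 4 * s * r ^ 6) <
        (A * r ^ (2 * d)) * n₁ ^ 2 := by
      calc (A * r ^ (2 * d)) * (12 * 10 ^ 9 * (d + 4) ^ 4 * s * r ^ 6)
          = (12 * 10 ^ 9 * (d + 4) ^ 4 * A) * s * r ^ (2 * d + 6) := by
            rw [pow_add]
            ring
        _ < n ^ 2 := hC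
        _ ≤ _ := h1
    have h3 : 12 * 10 ^ 9 * (d + 4) ^ 4 * s * r ^ 6 < n₁ ^ 2 := lt_of_mul_lt_mul_left h2 (Nat.zero_le _)
    have h4 : (s + q) * q ≤ 12 * s * r ^ 2 := by
      have h5 : q ≤ 3 * r := by omega
      have h6 : s + q ≤ 4 * s * r := by
        have h7 : s ≤ s * r := Nat.le_mul_of_pos_right s hr0
        have h8 : r ≤ s * r := Nat.le_mul_of_pos_left r hs
        nlinarith
      calc (s + q) * q ≤ (4 * s * r) * (3 * r) := Nat.mul_le_mul h6 h5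
        _ = _ := by ring
    calc 10 ^ 9 * T ^ 4 * (s + q) * q = 10 ^ 9 * T ^ 4 * ((s + q) * q) := by ring
      _ ≤ 10 ^ 9 * T ^ 4 * (12 * s * r ^ 2) := Nat.mul_le_mul_left _ h4
      _ = 12 * 10 ^ 9 * (d + 4) ^ 4 * s * r ^ 6 := by
          rw [hT]
          ring
      _ ≤ n₁ ^ 2 := h3.le
  have hkn : 5 * q ≤ n₁ := by
    have h1 : (5 * q) ^ 2 ≤ n₁ ^ 2 := by
      have h2 : 1 ≤ T ^ 4 := Nat.one_le_pow _ _ hT1
      calc (5 * q) ^ 2 = 25 * 1 * q * q := by ring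
        _ ≤ 10 ^ 9 * T ^ 4 * (s + q) * q := by
            apply Nat.mul_le_mul_right
            apply Nat.mul_le_mul _ (by omega)
            exact Nat.mul_le_mul (by norm_num) h2
        _ ≤ n₁ ^ 2 := hmain
    exact (Nat.pow_le_pow_iff_left (by norm_num)).1 h1
  refine ⟨hkn, ?_⟩
  intro M hM
  have hn10 : (0 : ℝ) < n₁ := by
    have : 0 < n₁ := by omega
    exact_mod_cast this
  have hmR : 10 ^ 9 * (T : ℝ) ^ 4 * ((s + q : ℕ) : ℝ) * q ≤ (n₁ : ℝ) ^ 2 := by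
    exact_mod_cast hmain
  obtain ⟨b, hb⟩ : ∃ b : ℝ, b = 32 * ((5 * q : ℝ) / n₁) * (2 / κ) * Real.exp (1 / 2) := ⟨_, rfl⟩
  have hb0 : 0 ≤ b := by
    rw [hb]
    positivity
  have hb2 : b ^ 2 ≤ (1 / 4) ^ 2 := by
    have e1 : Real.exp (1 / 2) ^ 2 = Real.exp 1 := by
      rw [← Real.exp_nat_mul]
      norm_num
    have e2 : b ^ 2 = 20480000 * Real.exp 1 *
        (((T : ℝ) ^ 4 * ((s + q : ℕ) : ℝ) * q) / (n₁ : ℝ) ^ 2) := by
      rw [hb, mul_pow, mul_pow, mul_pow, e1, div_pow 2 κ, hκ2]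
      field_simp
      ring
    have e3 : ((T : ℝ) ^ 4 * ((s + q : ℕ) : ℝ) * q) / (n₁ : ℝ) ^ 2 ≤ 1 / 10 ^ 9 := by
      rw [div_le_iff₀ (by positivity)]
      linarith
    have e4 : Real.exp 1 < 2.7182818286 := Real.exp_one_lt_d9
    have e5 : 0 < Real.exp 1 := Real.exp_pos 1
    rw [e2]
    have e6 : 20480000 * Real.exp 1 * (((T : ℝ) ^ 4 * ((s + q : ℕ) : ℝ) * q) / (n₁ : ℝ) ^ 2) ≤
        20480000 * Real.exp 1 * (1 / 10 ^ 9) :=
      mul_le_mul_of_nonneg_left e3 (by positivity)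
    have e7 : 20480000 * Real.exp 1 * (1 / 10 ^ 9 : ℝ) ≤ 20480000 * 2.7182818286 * (1 / 10 ^ 9) := by
      gcongr
    refine e6.trans (e7.trans ?_)
    norm_num
  have hb4 : b ≤ 1 / 4 := by
    by_contra hno
    push Not at hno
    nlinarith
  -- the number of tests
  have hM4 : 3 * (M : ℝ) < 4 ^ q := by
    have h1 : 3 * M < 4 ^ q := by
      calc 3 * M ≤ 3 * 2 ^ r := Nat.mul_le_mul_left _ hM
        _ ≤ 3 * 4 ^ r := Nat.mul_le_mul_left _ (Nat.pow_le_pow_left (by norm_num) _)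
        _ < 16 * 4 ^ r := by
            have : 0 < 4 ^ r := by positivity
            omega
        _ = 4 ^ q := by
            rw [hq, pow_add]
            ring
    exact_mod_cast h1
  have hMb : 3 * (M : ℝ) * b ^ q < 1 := by
    have h1 : b ^ q ≤ (1 / 4) ^ q := pow_le_pow_left₀ hb0 hb4 q
    have h2 : 3 * (M : ℝ) * b ^ q ≤ 3 * M * (1 / 4) ^ q :=
      mul_le_mul_of_nonneg_left h1 (by positivity)
    have h3 : 3 * (M : ℝ) * (1 / 4) ^ q < 4 ^ q * (1 / 4) ^ q :=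
      mul_lt_mul_of_pos_right hM4 (by positivity)
    have h4 : (4 : ℝ) ^ q * (1 / 4) ^ q = 1 := by
      rw [← mul_pow]
      norm_num
    rw [h4] at h3
    exact lt_of_le_of_lt h2 h3
  -- the binomial coefficients
  have hch : ((5 * q).choose q : ℝ) ≤ (n₁.choose q : ℝ) * ((5 * q : ℝ) / n₁) ^ q := by
    have h1 : (((5 * q).choose q * n₁ ^ q : ℕ) : ℝ) ≤ ((n₁.choose q * (5 * q) ^ q : ℕ) : ℝ) :=
      by exact_mod_cast choose_ratio hkn q
    push_cast at h1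
    rw [div_pow, ← mul_div_assoc, le_div_iff₀ (by positivity)]
    exact h1
  have hnc : (0 : ℝ) < n₁.choose q := by
    have : 0 < n₁.choose q := Nat.choose_pos (by omega)
    exact_mod_cast this
  have hexp : Real.exp (50 * (κ ^ 2 * (T : ℝ) ^ 4) * ((2 * s : ℕ) : ℝ)) ≤ Real.exp (1 / 2) ^ q := by
    rw [← Real.exp_nat_mul]
    apply Real.exp_le_exp.2
    rw [hκT]
    push_cast
    push_cast at hs0
    have e : 50 * ((q : ℝ) / (200 * ((s : ℝ) + q))) * (2 * s) = (q : ℝ) * (1 / 2) * (s / (s + q)) := by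
      field_simp
      ring
    rw [e]
    have h1 : (s : ℝ) / (s + q) ≤ 1 := by
      rw [div_le_one hs0]
      linarith
    have h2 : (0 : ℝ) ≤ (q : ℝ) * (1 / 2) := by positivity
    nlinarith
  have h32 : (2 : ℝ) ^ (5 * q) = 32 ^ q := by
    rw [pow_mul]
    norm_num
  rw [h32]
  have hB : 0 ≤ (32 : ℝ) ^ q * (3 * (M : ℝ) * (2 / κ * Real.exp (1 / 2)) ^ q) := by positivity
  calc (32 : ℝ) ^ q * ((5 * q).choose q : ℝ) *
        ((3 * M) * (2 ^ n * ((2 / κ) ^ q *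
          Real.exp (50 * (κ ^ 2 * (T : ℝ) ^ 4) * ((2 * s : ℕ) : ℝ)))))
      ≤ (32 : ℝ) ^ q * ((5 * q).choose q : ℝ) *
        ((3 * M) * (2 ^ n * ((2 / κ) ^ q * Real.exp (1 / 2) ^ q))) := by gcongr
    _ = 2 ^ n * (((5 * q).choose q : ℝ) *
        ((32 : ℝ) ^ q * (3 * (M : ℝ) * (2 / κ * Real.exp (1 / 2)) ^ q))) := by
        rw [mul_pow (2 / κ)]
        ring
    _ ≤ 2 ^ n * ((n₁.choose q : ℝ) * ((5 * q : ℝ) / n₁) ^ q *
        ((32 : ℝ) ^ q * (3 * (M : ℝ) * (2 / κ * Real.exp (1 / 2)) ^ q))) := by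
        apply mul_le_mul_of_nonneg_left _ (by positivity)
        exact mul_le_mul_of_nonneg_right hch hB
    _ = 2 ^ n * (n₁.choose q : ℝ) * (3 * (M : ℝ) * b ^ q) := by
        rw [hb]
        have e : (32 * ((5 * q : ℝ) / n₁) * (2 / κ) * Real.exp (1 / 2)) ^ q =
            ((5 * q : ℝ) / n₁) ^ q * ((32 : ℝ) ^ q * (2 / κ * Real.exp (1 / 2)) ^ q) := by
          rw [← mul_pow, ← mul_pow]
          congr 1
          ring
        rw [e]
        ring
    _ < 2 ^ n * (n₁.choose q : ℝ) * 1 := mul_lt_mul_of_pos_left hMb (by positivity)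
    _ = 2 ^ n * (n₁.choose q : ℝ) := mul_one _

end Pool.Agent.FU3.H20
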